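import Pool.Agent.H660.UT.Low

set_option autoImplicit false

/-! # The naive three-valued circuits for triangle detection with partial knowledge (helper660) -/

open scoped Classical
open Finset

namespace Pool.Agent.H660.UT

open Pool.Agent.H698.HF
open Flat (unknown known)

/-- the three-valued disjunction -/
def kor : Flat Bool → Flat Bool → Flat Bool
  | known true, _ => known true
  | _, known true => known true
  | known false, known false => known false
  | _, _ => unknown

/-- the three-valued conjunction -/
def kand : Flat Bool → Flat Bool → Flat Bool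
  | known false, _ => known false
  | _, known false => known false
  | known true, known true => known true
  | _, _ => unknown

theorem kor_true (x y : Flat Bool) : kor x y = known true ↔ x = known true ∨ y = known true := by
  rcases x with _ | (_ | _) <;> rcases y with _ | (_ | _) <;> simp [kor]

theorem kor_false (x y : Flat Bool) :
    kor x y = known false ↔ x = known false ∧ y = known false := by
  rcases x with _ | (_ | _) <;> rcases y with _ | (_ | _) <;> simp [kor]

theorem kand_true (x y : Flat Bool) :
    kand x y = known true ↔ x = known true ∧ y = known true := by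
  rcases x with _ | (_ | _) <;> rcases y with _ | (_ | _) <;> simp [kand]

theorem kand_false (x y : Flat Bool) :
    kand x y = known false ↔ x = known false ∨ y = known false := by
  rcases x with _ | (_ | _) <;> rcases y with _ | (_ | _) <;> simp [kand]

theorem kor_mono (x x' y y' : Flat Bool) (hx : x ≤ x') (hy : y ≤ y') : kor x y ≤ kor x' y' := by
  rw [Flat.le_iff] at hx hy ⊢
  rcases hx with rfl | rfl
  · rcases hy with rfl | rfl
    · left; rfl
    · rcases y with _ | (_ | _)
      · left; rfl
      · left; rfl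
      · right; rcases x' with _ | (_ | _) <;> rfl
  · rcases hy with rfl | rfl
    · rcases x with _ | (_ | _)
      · left; rfl
      · left; rfl
      · right; rcases y' with _ | (_ | _) <;> rfl
    · right; rfl

theorem kand_mono (x x' y y' : Flat Bool) (hx : x ≤ x') (hy : y ≤ y') :
    kand x y ≤ kand x' y' := by
  rw [Flat.le_iff] at hx hy ⊢
  rcases hx with rfl | rfl
  · rcases hy with rfl | rfl
    · left; rfl
    · rcases y with _ | (_ | _)
      · left; rfl
      · right; rcases x' with _ | (_ | _) <;> rfl
      · left; rfl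
  · rcases hy with rfl | rfl
    · rcases x with _ | (_ | _)
      · left; rfl
      · right; rcases y' with _ | (_ | _) <;> rfl
      · left; rfl
    · right; rfl

/-- the translation of a bit -/
def inp : Option Bool → Flat Bool
  | none => unknown
  | some b => known b

theorem inp_eq (o : Option Bool) (b : Bool) : inp o = known b ↔ o = some b := by
  rcases o with _ | c <;> simp [inp]

variable {n : ℕ}

theorem tri_iff (G : SimpleGraph (Fin n)) : ¬ G.CliqueFree 3 ↔
    ∃ a b c, a < b ∧ b < c ∧ G.Adj a b ∧ G.Adj a c ∧ G.Adj b c := by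
  unfold SimpleGraph.CliqueFree
  push Not
  constructor
  · rintro ⟨s, hs⟩
    obtain ⟨a, b, c, h1, h2, h3, -⟩ := SimpleGraph.is3Clique_iff.1 hs
    rcases lt_or_gt_of_ne h1.ne with h4 | h4 <;> rcases lt_or_gt_of_ne h2.ne with h5 | h5 <;>
      rcases lt_or_gt_of_ne h3.ne with h6 | h6
    · exact ⟨a, b, c, h4, h6, h1, h2, h3⟩
    · exact ⟨a, c, b, h5, h6, h2, h1, h3.symm⟩
    · exact absurd (h4.trans h6) h5.not_gt
    · exact ⟨c, a, b, h5, h4, h2.symm, h3.symm, h1⟩
    · exact ⟨b, a, c, h4, h5, h1.symm, h3, h2⟩
    · exact absurd (h4.trans h5) h6.not_gt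
    · exact ⟨b, c, a, h6, h5, h3, h1.symm, h2.symm⟩
    · exact ⟨c, b, a, h6, h4, h3.symm, h2.symm, h1.symm⟩
  · rintro ⟨a, b, c, -, -, h1, h2, h3⟩
    exact ⟨{a, b, c}, SimpleGraph.is3Clique_triple_iff.2 ⟨h1, h2, h3⟩⟩

/-- the value for one triple -/
def triv (t : Fin n × Fin n × Fin n) (P : Know (Sym2 (Fin n))) : Flat Bool :=
  kand (kand (inp (P s(t.1, t.2.1))) (inp (P s(t.1, t.2.2)))) (inp (P s(t.2.1, t.2.2)))

/-- the disjunction over a list of triples -/
def val : List (Fin n × Fin n × Fin n) → Know (Sym2 (Fin n)) → Flat Bool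
  | [], _ => known false
  | t :: ts, P => kor (triv t P) (val ts P)

theorem triv_true (t : Fin n × Fin n × Fin n) (P : Know (Sym2 (Fin n))) :
    triv t P = known true ↔ P s(t.1, t.2.1) = some true ∧ P s(t.1, t.2.2) = some true ∧
      P s(t.2.1, t.2.2) = some true := by
  unfold triv
  rw [kand_true, kand_true, inp_eq, inp_eq, inp_eq, and_assoc]

theorem triv_false (t : Fin n × Fin n × Fin n) (P : Know (Sym2 (Fin n))) :
    triv t P = known false ↔ P s(t.1, t.2.1) = some false ∨ P s(t.1, t.2.2) = some false ∨
      P s(t.2.1, t.2.2) = some false := by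
  unfold triv
  rw [kand_false, kand_false, inp_eq, inp_eq, inp_eq, or_assoc]

theorem val_true (P : Know (Sym2 (Fin n))) :
    ∀ ts, val ts P = known true ↔ ∃ t ∈ ts, triv t P = known true
  | [] => by simp [val]
  | t :: ts => by
    have h := val_true P ts
    unfold val
    rw [kor_true, h]
    simp

theorem val_false (P : Know (Sym2 (Fin n))) :
    ∀ ts, val ts P = known false ↔ ∀ t ∈ ts, triv t P = known false
  | [] => by simp [val]
  | t :: ts => by
    have h := val_false P ts
    unfold val
    rw [kor_false, h]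
    simp

theorem exists_inputs (es : List (Sym2 (Fin n))) :
    ∃ l : List (Know (Sym2 (Fin n)) → Flat Bool), Circ l ∧ l.length = es.length ∧
      ∀ e ∈ es, (fun P : Know (Sym2 (Fin n)) => inp (P e)) ∈ l := by
  induction es with
  | nil => exact ⟨[], Circ.nil, rfl, by simp⟩
  | cons e es ih =>
    obtain ⟨l, h1, h2, h3⟩ := ih
    refine ⟨_, Circ.input e inp h1 (fun b => Or.inl rfl), by simp [h2], ?_⟩
    intro e' he'
    rcases List.mem_cons.1 he' with rfl | he'
    · exact List.mem_cons_self
    · exact List.mem_cons_of_mem _ (h3 e' he')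

theorem exists_chain {l : List (Know (Sym2 (Fin n)) → Flat Bool)} (hl : Circ l)
    (h0 : (fun _ : Know (Sym2 (Fin n)) => known false) ∈ l)
    (h1 : ∀ e, (fun P : Know (Sym2 (Fin n)) => inp (P e)) ∈ l)
    (ts : List (Fin n × Fin n × Fin n)) :
    ∃ l', Circ l' ∧ (∀ g ∈ l, g ∈ l') ∧ l'.length ≤ l.length + 3 * ts.length ∧ val ts ∈ l' := by
  induction ts with
  | nil => exact ⟨l, hl, fun g hg => hg, by simp, h0⟩
  | cons t ts ih =>
    obtain ⟨l', g1, g2, g3, g4⟩ := ih
    have k1 := Circ.gate g1 kand_mono (g2 _ (h1 s(t.1, t.2.1))) (g2 _ (h1 s(t.1, t.2.2)))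
    have k2 := Circ.gate k1 kand_mono List.mem_cons_self
      (List.mem_cons_of_mem _ (g2 _ (h1 s(t.2.1, t.2.2))))
    have k3 := Circ.gate k2 kor_mono List.mem_cons_self
      (List.mem_cons_of_mem _ (List.mem_cons_of_mem _ g4))
    refine ⟨_, k3, fun g hg => List.mem_cons_of_mem _ (List.mem_cons_of_mem _
      (List.mem_cons_of_mem _ (g2 g hg))), ?_, ?_⟩
    · simp only [List.length_cons]; omega
    · exact List.mem_cons_self

/-- the increasing triples -/
noncomputable def triples (n : ℕ) : List (Fin n × Fin n × Fin n) :=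
  ((univ : Finset (Fin n × Fin n × Fin n)).filter fun t => t.1 < t.2.1 ∧ t.2.1 < t.2.2).toList

theorem mem_triples (t : Fin n × Fin n × Fin n) :
    t ∈ triples n ↔ t.1 < t.2.1 ∧ t.2.1 < t.2.2 := by
  simp [triples]

theorem sem_true {P : Know (Sym2 (Fin n))}
    (hP : ∃ G : SimpleGraph (Fin n), Le P (full (· ∈ G.edgeSet))) :
    val (triples n) P = known true ↔
      ∀ G : SimpleGraph (Fin n), Le P (full (· ∈ G.edgeSet)) → ¬ G.CliqueFree 3 := by
  rw [val_true]
  constructor
  · rintro ⟨t, -, ht⟩ G hG
    rw [triv_true] at ht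
    have key : ∀ e, P e = some true → e ∈ G.edgeSet := by
      intro e he
      rcases hG e with h | h
      · rw [he] at h; exact absurd h (by simp)
      · rw [he] at h
        unfold full at h
        simpa using h
    refine fun hcf => (?_ : ¬ G.CliqueFree 3) hcf
    unfold SimpleGraph.CliqueFree
    push Not
    exact ⟨{t.1, t.2.1, t.2.2}, SimpleGraph.is3Clique_triple_iff.2
      ⟨(SimpleGraph.mem_edgeSet G).1 (key _ ht.1), (SimpleGraph.mem_edgeSet G).1 (key _ ht.2.1),
        (SimpleGraph.mem_edgeSet G).1 (key _ ht.2.2)⟩⟩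
  · intro h
    let G : SimpleGraph (Fin n) := SimpleGraph.fromEdgeSet {e | P e = some true}
    have hmem : ∀ e, e ∈ G.edgeSet ↔ P e = some true ∧ ¬ e.IsDiag := by
      intro e
      simp only [G, SimpleGraph.edgeSet_fromEdgeSet]
      simp
    obtain ⟨G₀, hG₀⟩ := hP
    have hdiag : ∀ e, P e = some true → ¬ e.IsDiag := by
      intro e he hd
      rcases hG₀ e with h1 | h1
      · rw [he] at h1; exact absurd h1 (by simp)
      · rw [he] at h1
        unfold full at h1
        have h2 : e ∈ G₀.edgeSet := by simpa using h1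
        exact G₀.not_isDiag_of_mem_edgeSet h2 hd
    have hle : Le P (full (· ∈ G.edgeSet)) := by
      intro e
      rcases he : P e with _ | (_ | _)
      · exact Or.inl rfl
      · right
        unfold full
        have : e ∉ G.edgeSet := by rw [hmem, he]; simp
        simp [this]
      · right
        unfold full
        have : e ∈ G.edgeSet := by rw [hmem]; exact ⟨he, hdiag e he⟩
        simp [this]
    obtain ⟨a, b, c, h1, h2, h3, h4, h5⟩ := (tri_iff G).1 (h G hle)
    refine ⟨(a, b, c), (mem_triples _).2 ⟨h1, h2⟩, (triv_true _ _).2 ⟨?_, ?_, ?_⟩⟩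
    · exact ((hmem _).1 ((SimpleGraph.mem_edgeSet G).2 h3)).1
    · exact ((hmem _).1 ((SimpleGraph.mem_edgeSet G).2 h4)).1
    · exact ((hmem _).1 ((SimpleGraph.mem_edgeSet G).2 h5)).1

theorem sem_false {P : Know (Sym2 (Fin n))}
    (hP : ∃ G : SimpleGraph (Fin n), Le P (full (· ∈ G.edgeSet))) :
    val (triples n) P = known false ↔
      ∀ G : SimpleGraph (Fin n), Le P (full (· ∈ G.edgeSet)) → G.CliqueFree 3 := by
  rw [val_false]
  constructor
  · intro ht G hG
    by_contra hcf
    obtain ⟨a, b, c, h1, h2, h3, h4, h5⟩ := (tri_iff G).1 hcf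
    have key : ∀ e, P e = some false → e ∉ G.edgeSet := by
      intro e he
      rcases hG e with h | h
      · rw [he] at h; exact absurd h (by simp)
      · rw [he] at h
        unfold full at h
        simpa using h
    rcases (triv_false _ _).1 (ht (a, b, c) ((mem_triples _).2 ⟨h1, h2⟩)) with h | h | h
    · exact key _ h ((SimpleGraph.mem_edgeSet G).2 h3)
    · exact key _ h ((SimpleGraph.mem_edgeSet G).2 h4)
    · exact key _ h ((SimpleGraph.mem_edgeSet G).2 h5)
  · intro h t ht
    rw [mem_triples] at ht
    by_contra hcon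
    rw [triv_false] at hcon
    push Not at hcon
    let G : SimpleGraph (Fin n) := SimpleGraph.fromEdgeSet {e | P e ≠ some false}
    have hmem : ∀ e, e ∈ G.edgeSet ↔ P e ≠ some false ∧ ¬ e.IsDiag := by
      intro e
      simp only [G, SimpleGraph.edgeSet_fromEdgeSet]
      simp
    obtain ⟨G₀, hG₀⟩ := hP
    have hdiag : ∀ e, P e = some true → ¬ e.IsDiag := by
      intro e he hd
      rcases hG₀ e with h1 | h1
      · rw [he] at h1; exact absurd h1 (by simp)
      · rw [he] at h1
        unfold full at h1
        have h2 : e ∈ G₀.edgeSet := by simpa using h1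
        exact G₀.not_isDiag_of_mem_edgeSet h2 hd
    have hle : Le P (full (· ∈ G.edgeSet)) := by
      intro e
      rcases he : P e with _ | (_ | _)
      · exact Or.inl rfl
      · right
        unfold full
        have : e ∉ G.edgeSet := by rw [hmem, he]; simp
        simp [this]
      · right
        unfold full
        have : e ∈ G.edgeSet := by
          rw [hmem]
          exact ⟨by rw [he]; simp, hdiag e he⟩
        simp [this]
    have hadj : ∀ u v : Fin n, u ≠ v → P s(u, v) ≠ some false → G.Adj u v := by
      intro u v huv h1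
      rw [← SimpleGraph.mem_edgeSet, hmem]
      exact ⟨h1, by simpa using huv⟩
    exact (tri_iff G).2 ⟨t.1, t.2.1, t.2.2, ht.1, ht.2, hadj _ _ ht.1.ne hcon.1,
      hadj _ _ (ht.1.trans ht.2).ne hcon.2.1, hadj _ _ ht.2.ne hcon.2.2⟩ (h G hle)

/-- the naive three-valued circuit -/
theorem upperT (hn : 2 ≤ n) :
    ∃ l : List (Know (Sym2 (Fin n)) → Flat Bool), Circ l ∧ l.length ≤ 4 * n ^ 3 ∧
      (∀ m : ℕ, SolvesT m (1 / 2) (fun _ : Unit => 1) (fun _ => l)) ∧
      ∃ out ∈ l, ∀ P : Know (Sym2 (Fin n)),
        (∃ G : SimpleGraph (Fin n), Le P (full (· ∈ G.edgeSet))) →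
          (out P = known true ↔
            ∀ G : SimpleGraph (Fin n), Le P (full (· ∈ G.edgeSet)) → ¬ G.CliqueFree 3) ∧
          (out P = known false ↔
            ∀ G : SimpleGraph (Fin n), Le P (full (· ∈ G.edgeSet)) → G.CliqueFree 3) := by
  obtain ⟨l0, a1, a2, a3⟩ := exists_inputs (n := n) (univ : Finset (Sym2 (Fin n))).toList
  have b1 : Circ ((fun _ : Know (Sym2 (Fin n)) => known false) :: l0) := Circ.const _ a1
  obtain ⟨l, c1, c2, c3, c4⟩ := exists_chain b1 List.mem_cons_self
    (fun e => List.mem_cons_of_mem _ (a3 e (by simp))) (triples n)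
  have hlen : l.length ≤ 4 * n ^ 3 := by
    have h1 : (triples n).length ≤ n ^ 3 := by
      rw [triples, length_toList]
      refine (card_filter_le _ _).trans ?_
      rw [card_univ, Fintype.card_prod, Fintype.card_prod, Fintype.card_fin]
      exact le_of_eq (by ring)
    have h2 : ((univ : Finset (Sym2 (Fin n))).toList).length ≤ n ^ 2 := by
      rw [length_toList, card_univ, Sym2.card, Fintype.card_fin, Nat.choose_two_right]
      refine (Nat.div_le_div_right (c := 2) (show (n + 1) * (n + 1 - 1) ≤ 2 * n ^ 2 from ?_)).trans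
        (by omega)
      simp only [Nat.add_sub_cancel]
      nlinarith
    rw [List.length_cons, a2] at c3
    have h3 : n ^ 2 + 1 ≤ n ^ 3 := by
      have : n ^ 3 = n ^ 2 * n := by ring
      nlinarith [Nat.mul_le_mul hn hn]
    omega
  refine ⟨l, c1, hlen, fun m => ⟨fun _ => zero_le_one, by simp, fun _ => val (triples n),
    fun _ => {known true}, fun _ => c4, ?_, ?_⟩, val (triples n), c4, fun P hP =>
      ⟨sem_true hP, sem_false hP⟩⟩
  · intro _ x y hxy hx
    rw [Set.mem_singleton_iff] at hx ⊢
    rw [hx, Flat.le_iff] at hxy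
    rcases hxy with h | h
    · exact absurd h (by simp)
    · exact h.symm
  · intro G _
    constructor
    · intro hcf
      obtain ⟨a, b, c, h1, h2, h3, h4, h5⟩ := (tri_iff G).1 hcf
      have h : val (triples n) (truths (· ∈ G.edgeSet)) = known true := by
        rw [val_true]
        refine ⟨(a, b, c), (mem_triples _).2 ⟨h1, h2⟩, (triv_true _ _).2 ⟨?_, ?_, ?_⟩⟩ <;>
          (unfold truths; simp [h3, h4, h5])
      rw [filter_true_of_mem (fun _ _ => by rw [Set.mem_singleton_iff]; exact h)]
      norm_num
    · intro hcf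
      have h : val (triples n) (full (· ∈ G.edgeSet)) ≠ known true := by
        intro hcon
        exact (sem_true ⟨G, fun e => Or.inr rfl⟩).1 hcon G (fun e => Or.inr rfl) hcf
      rw [filter_true_of_mem (fun _ _ => by rw [Set.mem_singleton_iff]; exact h)]
      norm_num

end Pool.Agent.H660.UT
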