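import Pool.Agent.H660.UT.Sim
import Pool.Graph.R_seed8.H559R9.Tri

set_option autoImplicit false

/-! # Triangle detection in graphs with few edges and circuits with unknown inputs: the lower bound
(helper660) -/

open scoped Classical
open Finset Filter

namespace Pool.Agent.H660.UT

open Pool.Agent.H698.HF
open Pool.Agent.H520R2.NM

/-- The randomised circuit `l`, which has the form `l ω` with probability `p ω`, detects triangles in
the graphs with `n` vertices and at most `m` edges with advantage `δ`: there are output gates `out ω`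
and upper sets `acc ω` of values that mean yes such that for every graph `G` with at most `m` edges
the answer is yes with probability at least `1 / 2 + δ` if `G` has a triangle and the edges of `G`
are known (for all other pairs of vertices it is unknown whether they are edges), and the answer is
not yes with probability at least `1 / 2 + δ` if `G` has no triangle and everything is known. -/
def SolvesT {n : ℕ} (m : ℕ) (δ : ℝ) {D : Type} [PartialOrder D] {Ω : Type} [Fintype Ω]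
    (p : Ω → ℝ) (l : Ω → List (Know (Sym2 (Fin n)) → D)) : Prop :=
  (∀ ω, 0 ≤ p ω) ∧ ∑ ω, p ω = 1 ∧
  ∃ (out : Ω → Know (Sym2 (Fin n)) → D) (acc : Ω → Set D),
    (∀ ω, out ω ∈ l ω) ∧ (∀ ω, IsUpperSet (acc ω)) ∧
    ∀ G : SimpleGraph (Fin n), G.edgeSet.ncard ≤ m →
      (¬ G.CliqueFree 3 →
        1 / 2 + δ ≤ ∑ ω ∈ univ.filter (fun ω => out ω (truths (· ∈ G.edgeSet)) ∈ acc ω), p ω) ∧
      (G.CliqueFree 3 →
        1 / 2 + δ ≤ ∑ ω ∈ univ.filter (fun ω => out ω (full (· ∈ G.edgeSet)) ∉ acc ω), p ω)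

/-- the graph of a Boolean vector -/
def gr {n : ℕ} (x : Sym2 (Fin n) → Bool) : SimpleGraph (Fin n) :=
  SimpleGraph.fromEdgeSet {e | x e = true}

theorem mem_gr {n : ℕ} (x : Sym2 (Fin n) → Bool) (e : Sym2 (Fin n)) :
    e ∈ (gr x).edgeSet ↔ x e = true ∧ ¬ e.IsDiag := by
  unfold gr
  rw [SimpleGraph.edgeSet_fromEdgeSet]
  simp

theorem lowerT {θ : ℝ} (hθ : 0 < θ) (h : θ < 3 / 2) :
    ∃ α : ℝ, 0 < α ∧ ∀ᶠ m : ℕ in atTop, ∀ n : ℕ, m ≤ n ^ 2 →
      ∀ (D : Type) [PartialOrder D] (H : ℕ), Height D H → ∀ (δ : ℝ) (Ω : Type) [Fintype Ω]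
        (p : Ω → ℝ) (l : Ω → List (Know (Sym2 (Fin n)) → D)), (∀ ω, Circ (l ω)) →
        SolvesT m δ p l →
        (δ - (m : ℝ) ^ (-α)) * (m : ℝ) ^ θ ≤
          2 * H * (H + 1) * ∑ ω, p ω * ((l ω).length : ℝ) := by
  obtain ⟨α, hα, hmain⟩ := Pool.Agent.H559R9.tri_sparse 0 θ le_rfl hθ (by linarith)
  refine ⟨α, hα, ?_⟩
  filter_upwards [hmain, eventually_ge_atTop 1] with m hm hm1
  intro n hn D _ H hD δ Ω _ p l hl hs
  obtain ⟨⟨Λ, _, _, x, hx1, hx2⟩, -⟩ := hm n hn
  obtain ⟨hp, hp1, out, acc, h1, h2, h3⟩ := hs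
  have hC := fun ω => exists_circuit hD
    (fun (y : Sym2 (Fin n) → Bool) (e : Sym2 (Fin n)) => e ∈ (gr y).edgeSet)
    (by
      intro e
      by_cases he : e.IsDiag
      · exact Or.inr fun y hy => ((mem_gr y e).1 hy).2 he
      · exact Or.inl ⟨e, fun y => by rw [mem_gr]; simp [he]⟩)
    (hl ω) (h1 ω) (h2 ω)
  choose N C w hC1 hC2 hC3 using hC
  have hm0 : (0 : ℝ) < m := by exact_mod_cast hm1
  have hmθ : (0 : ℝ) < (m : ℝ) ^ θ := Real.rpow_pos_of_pos hm0 θ
  have hmα : (0 : ℝ) < (m : ℝ) ^ (-α) := Real.rpow_pos_of_pos hm0 _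
  set K : ℝ := 2 * H * (H + 1) with hK
  have hK0 : 0 ≤ K := by positivity
  let good : Ω → Λ → Prop := fun ω i => ((w ω).eval (x i) ((C ω).vals (x i)) = true ↔
    ¬ (gr (x i)).CliqueFree 3)
  have hΛ : (0 : ℝ) < Fintype.card Λ := by exact_mod_cast Fintype.card_pos
  -- each circuit
  have hA : ∀ ω, ((univ.filter (good ω)).card : ℝ) ≤
      (1 / 2 + (m : ℝ) ^ (-α) + K * ((l ω).length : ℝ) / (m : ℝ) ^ θ) * Fintype.card Λ := by
    intro ω
    have hlen : ((C ω).size : ℝ) ≤ K * ((l ω).length : ℝ) := by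
      rw [hK]
      exact_mod_cast hC2 ω
    have hq : 0 ≤ K * ((l ω).length : ℝ) / (m : ℝ) ^ θ := by positivity
    by_cases hs : ((C ω).size : ℝ) < (m : ℝ) ^ θ
    · have h4 := hx2 (N ω) (C ω) (w ω) (by rw [hC1]; simp) (by rw [hC1]; simpa using hs)
      have h5 : ((univ.filter (good ω)).card : ℝ) <
          (1 / 2 + (m : ℝ) ^ (-α)) * Fintype.card Λ := h4
      exact h5.le.trans (mul_le_mul_of_nonneg_right (by linarith) hΛ.le)
    · have h6 : 1 ≤ K * ((l ω).length : ℝ) / (m : ℝ) ^ θ := by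
        rw [le_div_iff₀ hmθ, one_mul]
        exact (not_lt.1 hs).trans hlen
      have h7 : ((univ.filter (good ω)).card : ℝ) ≤ Fintype.card Λ := by
        exact_mod_cast (card_filter_le _ _).trans_eq card_univ
      nlinarith
  -- each graph
  have hB : ∀ i, 1 / 2 + δ ≤ ∑ ω ∈ univ.filter (fun ω => good ω i), p ω := by
    intro i
    have hcard : (gr (x i)).edgeSet.ncard ≤ m := by
      refine le_trans ?_ (hx1 i)
      rw [← Set.ncard_coe_finset]
      refine Set.ncard_le_ncard ?_ (Finset.finite_toSet _)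
      intro e he
      simpa using ((mem_gr _ _).1 he).1
    obtain ⟨h4, h5⟩ := h3 (gr (x i)) hcard
    by_cases hcf : (gr (x i)).CliqueFree 3
    · refine (h5 hcf).trans (sum_le_sum_of_subset_of_nonneg ?_ fun ω _ _ => hp ω)
      intro ω hω
      rw [mem_filter] at hω ⊢
      refine ⟨hω.1, ?_⟩
      show (_ = true) ↔ _
      rw [hC3]
      refine ⟨fun h6 => ?_, fun h6 => absurd hcf h6⟩
      exact absurd (h2 ω ((hl ω).mono _ (h1 ω) _ _ (truths_le_full _)) h6) hω.2
    · refine (h4 hcf).trans (sum_le_sum_of_subset_of_nonneg ?_ fun ω _ _ => hp ω)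
      intro ω hω
      rw [mem_filter] at hω ⊢
      refine ⟨hω.1, ?_⟩
      show (_ = true) ↔ _
      rw [hC3]
      exact ⟨fun _ => hcf, fun _ => hω.2⟩
  have hsum : (1 / 2 + δ) * Fintype.card Λ ≤
      ∑ ω, p ω * ((univ.filter (good ω)).card : ℝ) := by
    calc (1 / 2 + δ) * Fintype.card Λ = ∑ _i : Λ, (1 / 2 + δ) := by
          rw [sum_const, card_univ, nsmul_eq_mul, mul_comm]
      _ ≤ ∑ i, ∑ ω ∈ univ.filter (fun ω => good ω i), p ω := sum_le_sum fun i _ => hB i
      _ = ∑ i, ∑ ω, if good ω i then p ω else 0 := by simp only [sum_filter]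
      _ = ∑ ω, ∑ i, if good ω i then p ω else 0 := sum_comm
      _ = ∑ ω, p ω * ((univ.filter (good ω)).card : ℝ) := by
          refine sum_congr rfl fun ω _ => ?_
          rw [← sum_filter, sum_const, nsmul_eq_mul, mul_comm]
  have hsum2 : ∑ ω, p ω * ((univ.filter (good ω)).card : ℝ) ≤
      (1 / 2 + (m : ℝ) ^ (-α) + K * (∑ ω, p ω * ((l ω).length : ℝ)) / (m : ℝ) ^ θ) *
        Fintype.card Λ := by
    calc ∑ ω, p ω * ((univ.filter (good ω)).card : ℝ) ≤ ∑ ω, p ω *
          ((1 / 2 + (m : ℝ) ^ (-α) + K * ((l ω).length : ℝ) / (m : ℝ) ^ θ) * Fintype.card Λ) :=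
          sum_le_sum fun ω _ => mul_le_mul_of_nonneg_left (hA ω) (hp ω)
      _ = ((1 / 2 + (m : ℝ) ^ (-α)) * (∑ ω, p ω) +
          K * (∑ ω, p ω * ((l ω).length : ℝ)) / (m : ℝ) ^ θ) * Fintype.card Λ := by
          rw [mul_sum, mul_sum, sum_div, ← sum_add_distrib, sum_mul]
          refine sum_congr rfl fun ω _ => ?_
          ring
      _ = _ := by rw [hp1, mul_one]
  have hfin : 1 / 2 + δ ≤
      1 / 2 + (m : ℝ) ^ (-α) + K * (∑ ω, p ω * ((l ω).length : ℝ)) / (m : ℝ) ^ θ :=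
    le_of_mul_le_mul_right (hsum.trans hsum2) hΛ
  have hfin2 : δ - (m : ℝ) ^ (-α) ≤ K * (∑ ω, p ω * ((l ω).length : ℝ)) / (m : ℝ) ^ θ := by
    linarith
  rwa [le_div_iff₀ hmθ] at hfin2

end Pool.Agent.H660.UT
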