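import Pool.Agent.H660.UT.Sim

set_option autoImplicit false

/-! # Words whose leading bits are known (helper660) -/

namespace Pool.Agent.H660.UT

/-- Partial knowledge about a word of `w` bits: some of the leading bits are known. -/
structure Pref (w : ℕ) : Type where
  /-- the known leading bits -/
  bits : List Bool
  /-- there are at most `w` bits -/
  len : bits.length ≤ w

/-- More knowledge means that more leading bits are known. -/
instance (w : ℕ) : PartialOrder (Pref w) where
  le x y := x.bits <+: y.bits
  le_refl x := List.prefix_rfl
  le_trans x y z h h' := List.IsPrefix.trans h h'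
  le_antisymm x y h h' := by
    obtain ⟨a, ha⟩ := x
    obtain ⟨b, hb⟩ := y
    have : a = b := List.IsPrefix.eq_of_length_le h h'.length_le
    subst this
    rfl

theorem Pref.le_def {w : ℕ} (x y : Pref w) : x ≤ y ↔ x.bits <+: y.bits := Iff.rfl

theorem height_pref (w : ℕ) : Height (Pref w) w := fun _ =>
  ⟨fun x => x.bits.length, fun x _ => x.len, fun _ hx _ hy =>
    ⟨fun h => List.IsPrefix.length_le h, fun h => List.prefix_of_prefix_length_le hx hy h⟩⟩

end Pool.Agent.H660.UT
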