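import Pool.Agent.H698.HF.Core
import Pool.Graph.R_seed8.H520R2.NMDefs

set_option autoImplicit false

/-! # Circuits with unknown inputs over orders of small height are simulated by circuits of AND and
OR gates (helper660) -/

open scoped Classical

namespace Pool.Agent.H660.UT

open Pool.Agent.H698.HF
open Pool.Agent.H520R2.NM

/-- The order of the states of knowledge is tree-like of height at most `H`: what lies below a state
is a chain with at most `H + 1` elements. -/
def Height (D : Type) [PartialOrder D] (H : ℕ) : Prop :=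
  ∀ a : D, ∃ f : D → ℕ, (∀ x ≤ a, f x ≤ H) ∧ ∀ x ≤ a, ∀ y ≤ a, (x ≤ y ↔ f x ≤ f y)

section comp

variable {ι : Type}

/-- the Boolean functions in `T` are computed by a circuit with at most `s` AND and OR gates -/
def Comp (s : ℕ) (T : Set ((ι → Bool) → Bool)) : Prop :=
  ∃ (N : ℕ) (C : Circuit ι N), C.fanins = [] ∧ C.size ≤ s ∧
    ∀ F ∈ T, ∃ w : Wire ι N, ∀ x, w.eval x (C.vals x) = F x

/-- a wire of the longer circuit -/
def lift {n : ℕ} : Wire ι n → Wire ι (n + 1)
  | .input i => .input i
  | .const b => .const b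
  | .gate j => .gate j.castSucc

theorem eval_lift {n : ℕ} (x : ι → Bool) (v : Fin n → Bool) (b : Bool) (w : Wire ι n) :
    (lift w).eval x (Fin.snoc (α := fun _ => Bool) v b) = w.eval x v := by
  cases w with
  | input i => rfl
  | const b => rfl
  | gate j => simp [lift, Wire.eval]

theorem comp_empty : Comp 0 (∅ : Set ((ι → Bool) → Bool)) :=
  ⟨0, .empty, rfl, le_rfl, fun F hF => absurd hF (by simp)⟩

theorem comp_mono {s s' : ℕ} {T T' : Set ((ι → Bool) → Bool)} (h : Comp s T) (hs : s ≤ s')
    (hT : T' ⊆ T) : Comp s' T' := by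
  obtain ⟨N, C, h1, h2, h3⟩ := h
  exact ⟨N, C, h1, h2.trans hs, fun F hF => h3 F (hT hF)⟩

theorem comp_const {s : ℕ} {T : Set ((ι → Bool) → Bool)} (h : Comp s T) (b : Bool) :
    Comp s (insert (fun _ => b) T) := by
  obtain ⟨N, C, h1, h2, h3⟩ := h
  refine ⟨N, C, h1, h2, fun F hF => ?_⟩
  rcases hF with rfl | hF
  · exact ⟨.const b, fun x => rfl⟩
  · exact h3 F hF

theorem comp_input {s : ℕ} {T : Set ((ι → Bool) → Bool)} (h : Comp s T) (i : ι) :
    Comp s (insert (fun x => x i) T) := by
  obtain ⟨N, C, h1, h2, h3⟩ := h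
  refine ⟨N, C, h1, h2, fun F hF => ?_⟩
  rcases hF with rfl | hF
  · exact ⟨.input i, fun x => rfl⟩
  · exact h3 F hF

theorem comp_and {s : ℕ} {T : Set ((ι → Bool) → Bool)} (h : Comp s T) {F G : (ι → Bool) → Bool}
    (hF : F ∈ T) (hG : G ∈ T) : Comp (s + 1) (insert (fun x => F x && G x) T) := by
  obtain ⟨N, C, h1, h2, h3⟩ := h
  obtain ⟨a, ha⟩ := h3 F hF
  obtain ⟨b, hb⟩ := h3 G hG
  refine ⟨N + 1, .and C a b, h1, Nat.succ_le_succ h2, fun K hK => ?_⟩
  rcases hK with rfl | hK
  · refine ⟨.gate (Fin.last N), fun x => ?_⟩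
    show Fin.snoc (α := fun _ => Bool) (C.vals x) _ (Fin.last N) = _
    rw [Fin.snoc_last, ha, hb]
  · obtain ⟨w, hw⟩ := h3 K hK
    exact ⟨lift w, fun x => (eval_lift x _ _ w).trans (hw x)⟩

theorem comp_or {s : ℕ} {T : Set ((ι → Bool) → Bool)} (h : Comp s T) {F G : (ι → Bool) → Bool}
    (hF : F ∈ T) (hG : G ∈ T) : Comp (s + 1) (insert (fun x => F x || G x) T) := by
  obtain ⟨N, C, h1, h2, h3⟩ := h
  obtain ⟨a, ha⟩ := h3 F hF
  obtain ⟨b, hb⟩ := h3 G hG
  refine ⟨N + 1, .or C a b, h1, Nat.succ_le_succ h2, fun K hK => ?_⟩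
  rcases hK with rfl | hK
  · refine ⟨.gate (Fin.last N), fun x => ?_⟩
    show Fin.snoc (α := fun _ => Bool) (C.vals x) _ (Fin.last N) = _
    rw [Fin.snoc_last, ha, hb]
  · obtain ⟨w, hw⟩ := h3 K hK
    exact ⟨lift w, fun x => (eval_lift x _ _ w).trans (hw x)⟩

theorem comp_orand {s : ℕ} {T : Set ((ι → Bool) → Bool)} (h : Comp s T)
    (L : List (((ι → Bool) → Bool) × ((ι → Bool) → Bool))) (hL : ∀ p ∈ L, p.1 ∈ T ∧ p.2 ∈ T) :
    Comp (s + 2 * L.length) (insert (fun x => L.any fun p => p.1 x && p.2 x) T) := by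
  induction L with
  | nil => exact comp_const h false
  | cons p L ih =>
    have h1 := ih fun q hq => hL q (List.mem_cons_of_mem _ hq)
    have hp := hL p List.mem_cons_self
    have h2 := comp_and h1 (Set.mem_insert_of_mem _ hp.1) (Set.mem_insert_of_mem _ hp.2)
    have h3 := comp_or h2 (Set.mem_insert _ _) (Set.mem_insert_of_mem _ (Set.mem_insert _ _))
    refine comp_mono h3 (by simp only [List.length_cons]; omega) ?_
    intro F hF
    rcases hF with rfl | hF
    · left
      funext x
      simp only [List.any_cons]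
    · right; right; right; exact hF

/-- the threshold function of a function with values in the natural numbers -/
def thr (r : (ι → Bool) → ℕ) (j : ℕ) : (ι → Bool) → Bool := fun x => decide (j ≤ r x)

theorem thr_zero (r : (ι → Bool) → ℕ) : thr r 0 = fun _ => true := by
  funext x; simp [thr]

theorem thr_gt {r : (ι → Bool) → ℕ} {H j : ℕ} (hr : ∀ x, r x ≤ H) (hj : H < j) :
    thr r j = fun _ => false := by
  funext x
  simp only [thr, decide_eq_false_iff_not, not_le]
  exact (hr x).trans_lt hj

/-- a function of ranks which is monotone in the ranks -/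
theorem comp_rank {s H : ℕ} {T : Set ((ι → Bool) → Bool)} (h : Comp s T)
    {r1 r2 r : (ι → Bool) → ℕ} (h1 : ∀ x, r1 x ≤ H) (h2 : ∀ x, r2 x ≤ H)
    (hT1 : ∀ j, thr r1 j ∈ T) (hT2 : ∀ j, thr r2 j ∈ T)
    (hmono : ∀ x y, r1 x ≤ r1 y → r2 x ≤ r2 y → r x ≤ r y) (j : ℕ) :
    Comp (s + 2 * (H + 1)) (insert (thr r j) T) := by
  have hex : ∀ p : ℕ, ∃ q, ∀ y, p ≤ r1 y → q ≤ r2 y → j ≤ r y := fun p =>
    ⟨H + 1, fun y _ hy => absurd (hy.trans (h2 y)) (by omega)⟩
  let q : ℕ → ℕ := fun p => Nat.find (hex p)
  have hq : ∀ p y, p ≤ r1 y → q p ≤ r2 y → j ≤ r y := fun p => Nat.find_spec (hex p)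
  let L : List (((ι → Bool) → Bool) × ((ι → Bool) → Bool)) :=
    (List.range (H + 1)).map fun p => (thr r1 p, thr r2 (q p))
  have h3 := comp_orand h L (by
    intro z hz
    obtain ⟨p, -, rfl⟩ := List.mem_map.1 hz
    exact ⟨hT1 p, hT2 (q p)⟩)
  have h4 : (fun x => L.any fun p => p.1 x && p.2 x) = thr r j := by
    funext x
    rw [Bool.eq_iff_iff]
    simp only [L, thr, List.any_map, List.any_eq_true, List.mem_range, Function.comp,
      Bool.and_eq_true, decide_eq_true_eq]
    constructor
    · rintro ⟨p, -, hp1, hp2⟩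
      exact hq p x hp1 hp2
    · intro hj
      refine ⟨r1 x, Nat.lt_succ_of_le (h1 x), le_rfl, ?_⟩
      exact Nat.find_min' (hex (r1 x)) fun y hy1 hy2 => hj.trans (hmono x y hy1 hy2)
  rw [h4] at h3
  exact comp_mono h3 (by simp [L]) le_rfl

theorem comp_ranks {s H : ℕ} {T : Set ((ι → Bool) → Bool)} (h : Comp s T)
    {r1 r2 r : (ι → Bool) → ℕ} (h1 : ∀ x, r1 x ≤ H) (h2 : ∀ x, r2 x ≤ H)
    (hT1 : ∀ j, thr r1 j ∈ T) (hT2 : ∀ j, thr r2 j ∈ T)
    (hmono : ∀ x y, r1 x ≤ r1 y → r2 x ≤ r2 y → r x ≤ r y) (k : ℕ) :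
    Comp (s + k * (2 * (H + 1))) (T ∪ {F | ∃ j, 1 ≤ j ∧ j ≤ k ∧ F = thr r j}) := by
  induction k with
  | zero =>
    refine comp_mono h (by omega) ?_
    rintro F (hF | ⟨j, hj1, hj2, -⟩)
    · exact hF
    · omega
  | succ k ih =>
    have h3 := comp_rank ih h1 h2 (fun j => Or.inl (hT1 j)) (fun j => Or.inl (hT2 j)) hmono (k + 1)
    refine comp_mono h3 (by ring_nf; omega) ?_
    rintro F (hF | ⟨j, hj1, hj2, rfl⟩)
    · exact Or.inr (Or.inl hF)
    · rcases Nat.lt_or_ge j (k + 1) with hj | hj
      · exact Or.inr (Or.inr ⟨j, hj1, by omega, rfl⟩)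
      · have : j = k + 1 := by omega
        rw [this]
        exact Or.inl rfl

/-- all the thresholds of a new rank function -/
theorem comp_all {s H : ℕ} {T : Set ((ι → Bool) → Bool)} (h : Comp s T)
    {r1 r2 r : (ι → Bool) → ℕ} (h1 : ∀ x, r1 x ≤ H) (h2 : ∀ x, r2 x ≤ H) (h0 : ∀ x, r x ≤ H)
    (hT1 : ∀ j, thr r1 j ∈ T) (hT2 : ∀ j, thr r2 j ∈ T)
    (hmono : ∀ x y, r1 x ≤ r1 y → r2 x ≤ r2 y → r x ≤ r y) :
    ∃ T', T ⊆ T' ∧ Comp (s + 2 * H * (H + 1)) T' ∧ ∀ j, thr r j ∈ T' := by
  have h3 := comp_const (comp_const (comp_ranks h h1 h2 hT1 hT2 hmono H) true) false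
  refine ⟨_, ?_, comp_mono h3 (by ring_nf; omega) le_rfl, ?_⟩
  · intro F hF
    exact Or.inr (Or.inr (Or.inl hF))
  · intro j
    rcases Nat.eq_zero_or_pos j with rfl | hj
    · rw [thr_zero]
      exact Or.inr (Or.inl rfl)
    · rcases Nat.lt_or_ge H j with hj2 | hj2
      · rw [thr_gt h0 hj2]
        exact Or.inl rfl
      · exact Or.inr (Or.inr (Or.inr ⟨j, hj, hj2, rfl⟩))

end comp

section sim

variable {ι E : Type} {D : Type} [PartialOrder D]

/-- the rank of the value of a gate if the bits in `tr x` are known to be true and the others are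
unknown -/
noncomputable def rk (f : D → D → ℕ) (tr : (ι → Bool) → E → Prop) (g : Know E → D)
    (x : ι → Bool) : ℕ :=
  f (g (truths fun _ => True)) (g (truths (tr x)))

theorem top_le (tr : (ι → Bool) → E → Prop) {l : List (Know E → D)} (hl : Circ l)
    {g : Know E → D} (hg : g ∈ l) (x : ι → Bool) :
    g (truths (tr x)) ≤ g (truths fun _ => True) :=
  hl.mono g hg _ _ (truths_le_truths fun _ _ => trivial)

theorem sim {H : ℕ} {f : D → D → ℕ} (hf1 : ∀ a, ∀ x ≤ a, f a x ≤ H)
    (hf2 : ∀ a, ∀ x ≤ a, ∀ y ≤ a, (x ≤ y ↔ f a x ≤ f a y))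
    (tr : (ι → Bool) → E → Prop)
    (htr : ∀ e, (∃ i, ∀ x, tr x e ↔ x i = true) ∨ ∀ x, ¬ tr x e)
    {l : List (Know E → D)} (hl : Circ l) :
    ∃ T, Comp (2 * H * (H + 1) * l.length) T ∧ ∀ g ∈ l, ∀ j, thr (rk f tr g) j ∈ T := by
  induction hl with
  | nil => exact ⟨∅, comp_empty, fun g hg => absurd hg (by simp)⟩
  | @input l e i hl hi ih =>
    obtain ⟨T, hT1, hT2⟩ := ih
    have hc : ∀ b : Bool, Comp (2 * H * (H + 1) * l.length) (insert (fun _ => b) T) :=
      fun b => comp_const hT1 b
    rcases htr e with ⟨k, hk⟩ | hk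
    · have h3 := comp_input (comp_const (comp_const hT1 true) false) k
      refine ⟨_, comp_mono h3 (by simp only [List.length_cons]; ring_nf; omega) le_rfl, ?_⟩
      intro g hg j
      rcases List.mem_cons.1 hg with rfl | hg
      · have hval : ∀ x : ι → Bool, rk f tr (fun P => i (P e)) x =
            if x k = true then f (i (some true)) (i (some true))
            else f (i (some true)) (i none) := by
          intro x
          unfold rk truths
          by_cases hx : x k = true
          · simp [(hk x).2 hx, hx]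
          · simp [mt (hk x).1 hx, hx]
        have hle : f (i (some true)) (i none) ≤ f (i (some true)) (i (some true)) :=
          (hf2 _ _ (hi true) _ le_rfl).1 (hi true)
        by_cases h1 : j ≤ f (i (some true)) (i none)
        · have : thr (rk f tr fun P => i (P e)) j = fun _ => true := by
            funext x
            simp only [thr, hval, decide_eq_true_eq]
            split_ifs
            · exact h1.trans hle
            · exact h1
          rw [this]
          exact Or.inr (Or.inr (Or.inl rfl))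
        · by_cases h2 : j ≤ f (i (some true)) (i (some true))
          · have : thr (rk f tr fun P => i (P e)) j = fun x => x k := by
              funext x
              simp only [thr, hval]
              cases hx : x k with
              | true => simp [h2]
              | false => simpa using h1
            rw [this]
            exact Or.inl rfl
          · have : thr (rk f tr fun P => i (P e)) j = fun _ => false := by
              funext x
              simp only [thr, hval, decide_eq_false_iff_not]
              split_ifs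
              · exact h2
              · exact h1
            rw [this]
            exact Or.inr (Or.inl rfl)
      · exact Or.inr (Or.inr (Or.inr (hT2 g hg j)))
    · have h3 := comp_const (comp_const hT1 true) false
      refine ⟨_, comp_mono h3 (by simp only [List.length_cons]; ring_nf; omega) le_rfl, ?_⟩
      intro g hg j
      rcases List.mem_cons.1 hg with rfl | hg
      · have hval : ∀ x : ι → Bool, rk f tr (fun P => i (P e)) x =
            f (i (some true)) (i none) := by
          intro x
          unfold rk truths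
          simp [hk x]
        by_cases h1 : j ≤ f (i (some true)) (i none)
        · have : thr (rk f tr fun P => i (P e)) j = fun _ => true := by
            funext x
            simp only [thr, hval, decide_eq_true_eq]
            exact h1
          rw [this]
          exact Or.inr (Or.inl rfl)
        · have : thr (rk f tr fun P => i (P e)) j = fun _ => false := by
            funext x
            simp only [thr, hval, decide_eq_false_iff_not]
            exact h1
          rw [this]
          exact Or.inl rfl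
      · exact Or.inr (Or.inr (hT2 g hg j))
  | @const l c hl ih =>
    obtain ⟨T, hT1, hT2⟩ := ih
    have h3 := comp_const (comp_const hT1 true) false
    refine ⟨_, comp_mono h3 (by simp only [List.length_cons]; ring_nf; omega) le_rfl, ?_⟩
    intro g hg j
    rcases List.mem_cons.1 hg with rfl | hg
    · by_cases h1 : j ≤ f c c
      · have : thr (rk f tr fun _ : Know E => c) j = fun _ => true := by
          funext x
          exact decide_eq_true h1
        rw [this]
        exact Or.inr (Or.inl rfl)
      · have : thr (rk f tr fun _ : Know E => c) j = fun _ => false := by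
          funext x
          exact decide_eq_false h1
        rw [this]
        exact Or.inl rfl
    · exact Or.inr (Or.inr (hT2 g hg j))
  | @gate l φ g1 g2 hl hφ hg1 hg2 ih =>
    obtain ⟨T, hT1, hT2⟩ := ih
    have hle : ∀ x, φ (g1 (truths (tr x))) (g2 (truths (tr x))) ≤
        φ (g1 (truths fun _ => True)) (g2 (truths fun _ => True)) :=
      fun x => hφ _ _ _ _ (top_le tr hl hg1 x) (top_le tr hl hg2 x)
    obtain ⟨T', hT, hC, hj⟩ := comp_all (r := rk f tr fun P => φ (g1 P) (g2 P)) hT1
      (fun x => hf1 _ _ (top_le tr hl hg1 x)) (fun x => hf1 _ _ (top_le tr hl hg2 x))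
      (fun x => hf1 _ _ (hle x)) (hT2 g1 hg1) (hT2 g2 hg2) (by
        intro x y h1 h2
        have e1 := (hf2 _ _ (top_le tr hl hg1 x) _ (top_le tr hl hg1 y)).2 h1
        have e2 := (hf2 _ _ (top_le tr hl hg2 x) _ (top_le tr hl hg2 y)).2 h2
        exact (hf2 _ _ (hle x) _ (hle y)).1 (hφ _ _ _ _ e1 e2))
    refine ⟨T', comp_mono hC (by simp only [List.length_cons]; ring_nf; omega) le_rfl, ?_⟩
    intro g hg j
    rcases List.mem_cons.1 hg with rfl | hg
    · exact hj j
    · exact hT (hT2 g hg j)

/-- A circuit with unknown inputs over an order of height at most `H` is simulated by a circuit of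
AND and OR gates, on the inputs with true bits and unknown bits. -/
theorem exists_circuit {H : ℕ} (hD : Height D H) (tr : (ι → Bool) → E → Prop)
    (htr : ∀ e, (∃ i, ∀ x, tr x e ↔ x i = true) ∨ ∀ x, ¬ tr x e)
    {l : List (Know E → D)} (hl : Circ l) {out : Know E → D} (hout : out ∈ l) {A : Set D}
    (hA : IsUpperSet A) :
    ∃ (N : ℕ) (C : Circuit ι N) (w : Wire ι N), C.fanins = [] ∧
      C.size ≤ 2 * H * (H + 1) * l.length ∧
      ∀ x, w.eval x (C.vals x) = true ↔ out (truths (tr x)) ∈ A := by
  choose f hf1 hf2 using hD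
  obtain ⟨T, hT1, hT2⟩ := sim hf1 hf2 tr htr hl
  have key : ∃ F : (ι → Bool) → Bool, F ∈ insert (fun _ => false) T ∧
      ∀ x, F x = true ↔ out (truths (tr x)) ∈ A := by
    by_cases hex : ∃ j, ∃ u ≤ out (truths fun _ => True), u ∈ A ∧
        f (out (truths fun _ => True)) u = j
    · obtain ⟨u, hu1, hu2, hu3⟩ := Nat.find_spec hex
      refine ⟨_, Set.mem_insert_of_mem _ (hT2 out hout (Nat.find hex)), fun x => ?_⟩
      have hthr : thr (rk f tr out) (Nat.find hex) x = true ↔ Nat.find hex ≤
          f (out (truths fun _ => True)) (out (truths (tr x))) := decide_eq_true_iff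
      rw [hthr]
      constructor
      · intro h
        rw [← hu3] at h
        exact hA ((hf2 _ _ hu1 _ (top_le tr hl hout x)).2 h) hu2
      · intro h
        exact Nat.find_min' hex ⟨_, top_le tr hl hout x, h, rfl⟩
    · refine ⟨_, Set.mem_insert _ _, fun x => ?_⟩
      constructor
      · intro h; exact absurd h (by simp)
      · intro h
        exact absurd ⟨_, _, top_le tr hl hout x, h, rfl⟩ hex
  obtain ⟨F, hF, hF2⟩ := key
  obtain ⟨N, C, h1, h2, h3⟩ := comp_const hT1 false
  obtain ⟨w, hw⟩ := h3 F hF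
  exact ⟨N, C, w, h1, h2, fun x => by rw [hw, hF2]⟩

end sim

/-- flat orders have height one -/
theorem height_flat (A : Type) : Height (Flat A) 1 := by
  intro a
  refine ⟨fun x => if x = Flat.unknown then 0 else 1, fun x _ => by dsimp only; split_ifs <;> omega,
    fun x hx y hy => ?_⟩
  rw [Flat.le_iff] at hx hy ⊢
  by_cases h1 : x = Flat.unknown
  · simp [h1]
  · by_cases h2 : y = Flat.unknown
    · simp [h1, h2]
    · have h3 : x = a := hx.resolve_left h1
      have h4 : y = a := hy.resolve_left h2
      simp [h3, h4]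

end Pool.Agent.H660.UT
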